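import Pool.Agent.Q144.EW.Ein

/-!
# Einstein manifolds of every even dimension `n` whose Weyl tensor is small in `L^(n/2)`

Let `n = 2 m ≥ 2` be any even dimension and `G(κ)` the absolute value of the Gauss–Bonnet–Chern
integrand for constant curvature `± κ`, so that `G(κ) vol(M) = 2 vol(M) / vol(S^n_κ)`. Let `|W|` be the
Hilbert–Schmidt norm `(∑ W_ijkl²)^(1/2)` of the Weyl tensor.

(1) Let the Ricci tensor at a point be `-(n - 1) κ` times the metric, `κ > 0`. Then, without any
condition on `W`,
`|(-1)^m GB - G(κ)| ≤ (G(κ) / 5) (1 + (10⁶ |W| / (κ n))^m)`.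
(2) So a closed Einstein manifold `M` with `Ric = -(n - 1) κ g` satisfies
`|(-1)^m χ(M) - G(κ) vol(M)| ≤ (G(κ) / 5) (vol(M) + ∫ (10⁶ |W| / (κ n))^m)`,
and, if `∫ |W|^(n/2) < 4 (10⁻⁶ κ n)^(n/2) vol(M)`, then `(-1)^m χ(M) > 0`. In other words: on a closed
manifold with `χ(M) = 0`, or with the sign of `χ(M)` different from that of hyperbolic manifolds, every
Einstein metric of negative scalar curvature has `∫ |W|^(n/2) ≥ 4 (10⁻⁶ κ n)^(n/2) vol(M)`.
Under the smallness condition `(-1)^m χ(M)` is between `1/5` and `9/5` times `G(κ) vol(M)` if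
`∫ |W|^(n/2) ≤ 3 (10⁻⁶ κ n)^(n/2) vol(M)`, so the volume is determined by the Euler characteristic up
to a factor.
The same with `Ric = (n - 1) κ g` and `χ(M)` in place of `(-1)^m χ(M)`.

The conditions are scale invariant, there is no pointwise condition on the curvature (no bound of
sectional curvatures, no sign), and the bound for the norm of `W` in the mean grows linearly with the
dimension. The results on this problem in the starting files (`OneSidedDimSix`, `OneSidedOperator`,
`SpaceFormEulerCharacteristic`) have one-sided bounds of the sectional curvature or of the curvature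
operator at every point. (For positive Einstein constant there are theorems by which a small
`L^(n/2)`-norm of `W` implies constant curvature; the new case is the negative one.)

The proof: the integrand is expanded in powers of `W`; the term of degree `k` is written with random
sign vectors and estimated by spectral and hypercontractive moment bounds in
`Pool/Agent/W666/GB/` (a development of the starting repository), which gives
`G(κ) (2 / e²) (2700 e⁵ |W| / (κ n))^k` for all `k ≤ m`; see `Pool/Agent/Q144/EW/`.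
-/

set_option autoImplicit false

namespace Pool.Agent.Results.MP_ebfab8_gt.WeylCurvatureInMean

open MeasureTheory Pool.Agent.TH594.HE Pool.Agent.Q144.EW
open Pool.Agent.W666.GB (AlgCurv gbc roundGB CurvField roundGB_pos)

/-- **Einstein manifolds with a small Weyl tensor in `L^(n/2)`: the size and the sign of the Euler
characteristic.** -/
theorem result :
    -- the pointwise estimates
    (∀ (m : ℕ) (V : Type) [NormedAddCommGroup V] [InnerProductSpace ℝ V]
      (e : OrthonormalBasis (Fin m × Bool) ℝ V) (R : V → V → V → V → ℝ) (κ : ℝ),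
      0 < m → AlgCurv R → 0 < κ →
        (Einstein e R (-κ) → |(-1) ^ m * gbc e R - roundGB m κ| ≤
          1 / 5 * (1 + (10 ^ 6 * weylNorm e R (-κ) / (κ * (2 * m))) ^ m) * roundGB m κ) ∧
        (Einstein e R κ → |gbc e R - roundGB m κ| ≤
          1 / 5 * (1 + (10 ^ 6 * weylNorm e R κ / (κ * (2 * m))) ^ m) * roundGB m κ)) ∧
    -- negative Einstein constant
    (∀ (m : ℕ) (M : Type) [MeasurableSpace M] (μ : Measure M) [IsFiniteMeasure μ]
      (K : CurvField m M) (κ : ℝ), 0 < m → 0 < κ → Integrable K.gb μ →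
      (∀ p, Einstein (K.e p) (K.R p) (-κ)) →
      Integrable (fun p => weylNorm (K.e p) (K.R p) (-κ) ^ m) μ →
        |(-1) ^ m * ∫ p, K.gb p ∂μ - roundGB m κ * μ.real Set.univ| ≤
          1 / 5 * (μ.real Set.univ + (10 ^ 6 / (κ * (2 * m))) ^ m *
            ∫ p, weylNorm (K.e p) (K.R p) (-κ) ^ m ∂μ) * roundGB m κ ∧
        (∫ p, weylNorm (K.e p) (K.R p) (-κ) ^ m ∂μ <
            4 * ((κ * (2 * m)) / 10 ^ 6) ^ m * μ.real Set.univ →
          0 < (-1) ^ m * ∫ p, K.gb p ∂μ)) ∧
    -- positive Einstein constant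
    (∀ (m : ℕ) (M : Type) [MeasurableSpace M] (μ : Measure M) [IsFiniteMeasure μ]
      (K : CurvField m M) (κ : ℝ), 0 < m → 0 < κ → Integrable K.gb μ →
      (∀ p, Einstein (K.e p) (K.R p) κ) →
      Integrable (fun p => weylNorm (K.e p) (K.R p) κ ^ m) μ →
        |∫ p, K.gb p ∂μ - roundGB m κ * μ.real Set.univ| ≤
          1 / 5 * (μ.real Set.univ + (10 ^ 6 / (κ * (2 * m))) ^ m *
            ∫ p, weylNorm (K.e p) (K.R p) κ ^ m ∂μ) * roundGB m κ ∧
        (∫ p, weylNorm (K.e p) (K.R p) κ ^ m ∂μ <
            4 * ((κ * (2 * m)) / 10 ^ 6) ^ m * μ.real Set.univ →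
          0 < ∫ p, K.gb p ∂μ)) := by
  refine ⟨?_, ?_, ?_⟩
  · intro m V _ _ e R κ hm hR hκ
    exact ⟨fun hE => point_neg e hm hR hκ hE, fun hE => point_pos e hm hR hκ hE⟩
  · intro m M _ μ _ K κ hm hκ hi hE hw
    have hm' : (0 : ℝ) < m := by exact_mod_cast hm
    have hG := roundGB_pos (m := m) hκ
    have h1 := int_close (μ := μ) (f := fun p => (-1) ^ m * K.gb p)
      (w := fun p => weylNorm (K.e p) (K.R p) (-κ)) (κ := κ * (2 * m)) (m := m) hG
      (hi.const_mul _) hw fun p => point_neg (K.e p) hm (K.curv p) hκ (hE p)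
    rw [integral_const_mul] at h1
    exact ⟨h1, fun h => int_pos hG (by positivity)
      (integral_nonneg fun p => pow_nonneg (weylNorm_nonneg _ _) _) h1 h⟩
  · intro m M _ μ _ K κ hm hκ hi hE hw
    have hm' : (0 : ℝ) < m := by exact_mod_cast hm
    have hG := roundGB_pos (m := m) hκ
    have h1 := int_close (μ := μ) (f := fun p => K.gb p)
      (w := fun p => weylNorm (K.e p) (K.R p) κ) (κ := κ * (2 * m)) (m := m) hG
      hi hw fun p => point_pos (K.e p) hm (K.curv p) hκ (hE p)
    exact ⟨h1, fun h => int_pos hG (by positivity)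
      (integral_nonneg fun p => pow_nonneg (weylNorm_nonneg _ _) _) h1 h⟩

end Pool.Agent.Results.MP_ebfab8_gt.WeylCurvatureInMean
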